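import Pool.Agent.Lib_MP_ae71a2_nt.Final
import Pool.Agent.Lib_MP_ae71a2_nt.FrobEx

/-!
# MP_ae71a2_nt: the 5-kernel of the 5-adic valuation of the Apery numbers has infinite rank

Let `u_n` be the Apery numbers and `b_n = v_5(u_n)`.  For every `N` there is `e₀` such that for
every `e ≥ e₀` and every commutative ring `R` of characteristic zero no `N` sequences in `R`
generate an `R`-module which contains all the sequences `(b_{5^e n + r})_n`, `0 ≤ r < 5^e`.
With `R = ℤ`: the module generated by the 5-kernel is not finitely generated, so `(b_n)` is not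
5-regular.
-/

namespace Pool.Agent.Results.MP_ae71a2_nt.KernelRank

open Finset Pool.Agent.Apery5

/-- the Apery number `u_n = ∑_{k ≤ n} C(n,k)^2 C(n+k,k)^2` -/
def apery (n : ℕ) : ℕ := ∑ k ∈ Finset.range (n + 1), n.choose k ^ 2 * (n + k).choose k ^ 2

/-- `b_n = v_5(u_n)`, the exponent of 5 in the prime factorization of the Apery number `u_n` -/
def b (n : ℕ) : ℕ := (apery n).factorization 5

theorem b_eq (n : ℕ) : b n = padicValNat 5 (ap n) := by
  unfold b apery ap
  exact Nat.factorization_def _ (by norm_num)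

/-- a matrix with nonnegative entries below `k` off the diagonal and large diagonal entries stays
nonsingular when nonnegative constants are added to its columns -/
theorem det_ne_zero_of_dom {n : ℕ} (M : Matrix (Fin n) (Fin n) ℤ) (c : Fin n → ℤ) (k : ℤ)
    (hk : 0 ≤ k) (hc : ∀ j, 0 ≤ c j)
    (hoff : ∀ i j, i ≠ j → 0 ≤ M i j - c j ∧ M i j - c j ≤ k)
    (hdiag : ∀ j, 2 * (n : ℤ) * k + 1 ≤ M j j - c j) : M.det ≠ 0 := by
  intro hdet
  obtain ⟨v, hv0, hv⟩ := Matrix.exists_mulVec_eq_zero_iff.2 hdet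
  -- replace v by -v if necessary
  obtain ⟨v, hv0, hv, hS⟩ : ∃ v : Fin n → ℤ, v ≠ 0 ∧ M.mulVec v = 0 ∧ ∑ j, c j * v j ≤ 0 := by
    rcases le_total (∑ j, c j * v j) 0 with h | h
    · exact ⟨v, hv0, hv, h⟩
    · refine ⟨-v, neg_ne_zero.2 hv0, by rw [Matrix.mulVec_neg, hv, neg_zero], ?_⟩
      simp only [Pi.neg_apply, mul_neg, sum_neg_distrib]
      linarith
  have hne : ∃ i, v i ≠ 0 := Function.ne_iff.1 hv0
  obtain ⟨i₀, hi₀⟩ := hne
  obtain ⟨p, -, hp⟩ := exists_max_image univ (fun i => |v i|) ⟨i₀, mem_univ _⟩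
  have hpos : 0 < |v p| := lt_of_lt_of_le (abs_pos.2 hi₀) (hp i₀ (mem_univ _))
  set S : ℤ := ∑ j, c j * v j with hSdef
  have hrow : ∀ i, (M i i - c i) * v i = -S - ∑ j ∈ univ.erase i, (M i j - c j) * v j := by
    intro i
    have h1 : ∑ j, M i j * v j = 0 := congrFun hv i
    have h2 : ∑ j, (M i j - c j) * v j = -S := by
      simp only [sub_mul, sum_sub_distrib]
      rw [h1]; ring
    rw [← add_sum_erase univ _ (mem_univ i)] at h2
    linarith
  have hbound : ∀ i, |∑ j ∈ univ.erase i, (M i j - c j) * v j| ≤ (n : ℤ) * (k * |v p|) := by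
    intro i
    refine (abs_sum_le_sum_abs _ _).trans ?_
    have h3 : ∀ j ∈ univ.erase i, |(M i j - c j) * v j| ≤ k * |v p| := by
      intro j hj
      rw [abs_mul]
      obtain ⟨h4, h5⟩ := hoff i j (ne_of_mem_erase hj).symm
      exact mul_le_mul (by rw [abs_of_nonneg h4]; exact h5) (hp j (mem_univ _)) (abs_nonneg _) hk
    refine (sum_le_card_nsmul _ _ _ h3).trans ?_
    rw [nsmul_eq_mul]
    refine mul_le_mul_of_nonneg_right ?_ (mul_nonneg hk (abs_nonneg _))
    have := card_le_card (erase_subset i (univ : Finset (Fin n)))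
    rw [card_univ, Fintype.card_fin] at this
    exact_mod_cast this
  have hkv : 0 ≤ k * |v p| := mul_nonneg hk (abs_nonneg _)
  have hn0 : (0 : ℤ) ≤ (n : ℤ) := Int.natCast_nonneg n
  have hSbig : ((n : ℤ) * k + 1) * |v p| ≤ -S := by
    have h1 := hrow p
    have h2 : |(M p p - c p) * v p| ≤ -S + (n : ℤ) * (k * |v p|) := by
      rw [h1]
      refine (abs_sub _ _).trans ?_
      have := hbound p
      rw [abs_of_nonneg (by linarith : (0 : ℤ) ≤ -S)]
      linarith
    have hd := hdiag p
    have hdpos : 0 ≤ M p p - c p := by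
      have : 0 ≤ 2 * (n : ℤ) * k := by positivity
      linarith
    rw [abs_mul, abs_of_nonneg hdpos] at h2
    have h3 : (2 * (n : ℤ) * k + 1) * |v p| ≤ (M p p - c p) * |v p| :=
      mul_le_mul_of_nonneg_right hd hpos.le
    nlinarith
  have hvpos : ∀ i, 0 ≤ v i := by
    intro i
    by_contra hneg
    push Not at hneg
    have h1 := hrow i
    have h2 := (abs_le.1 (hbound i)).2
    have hd := hdiag i
    have hdpos : 0 < M i i - c i := by
      have : 0 ≤ 2 * (n : ℤ) * k := by positivity
      linarith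
    have h3 : (M i i - c i) * v i < 0 := mul_neg_of_pos_of_neg hdpos hneg
    nlinarith
  have : 0 ≤ S := sum_nonneg fun j _ => mul_nonneg (hc j) (hvpos j)
  nlinarith

/-- nonzero minors at every large level of the kernel -/
theorem minors (N : ℕ) : ∃ e₀ : ℕ, ∀ e, e₀ ≤ e → ∃ r m : Fin N → ℕ, (∀ i, r i < 5 ^ e) ∧
    (Matrix.of fun i j => ((b (5 ^ e * m j + r i) : ℕ) : ℤ)).det ≠ 0 := by
  obtain ⟨A, B, C, D, hF⟩ := exists_Frob
  obtain ⟨k, S, hS, hg⟩ := many hF N
  obtain ⟨p, hp⟩ : ∃ p : Fin N ↪ List ℕ, ∀ i, p i ∈ S := by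
    have hc : Fintype.card (Fin N) ≤ Fintype.card S := by
      rw [Fintype.card_fin, Fintype.card_coe]; omega
    obtain ⟨g⟩ := Function.Embedding.nonempty_of_card_le hc
    exact ⟨g.trans (Function.Embedding.subtype _), fun i => (g i).2⟩
  refine ⟨k + (2 * N * k + 1) + 1, fun K hKge => ?_⟩
  obtain ⟨L, hL, hLge⟩ : ∃ L, K = k + L + 1 ∧ 2 * N * k + 1 ≤ L :=
    ⟨K - k - 1, by omega, by omega⟩
  have hext : ∀ i, ∃ s : List ℕ, s.length = L ∧ Good A B C D (p i ++ s) := fun i =>
    good_extend hF (hg _ (hp i)).2 _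
  choose s hs1 hs2 using hext
  unfold Good Cfg at hs2
  choose m hm hm2 hA hD z hz hphi using hs2
  have hlen : ∀ i, (p i ++ s i).length = k + L := by
    intro i; rw [List.length_append, (hg _ (hp i)).1, hs1]
  have hcross : ∀ i j, ((b (5 ^ K * m j + val (p i ++ s i) 1) : ℕ) : ℤ) =
      ((K + padicValNat 5 (ap (5 * m j)) : ℕ) : ℤ) +
        ((phi A B C D (m j) (z j) (p i ++ s i)).valuation : ℤ) := by
    intro i j
    have := (u_val_formula hF (hz j) (hD i)).2
    rw [hlen i] at this
    rw [← hL] at this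
    rw [b_eq, this]
    push_cast
    ring
  refine ⟨fun i => val (p i ++ s i) 1, m, ?_, ?_⟩
  · intro i
    have := val_one_lt (hD i)
    rw [hlen i, ← hL] at this
    exact this
  · refine det_ne_zero_of_dom _ (fun j => ((K + padicValNat 5 (ap (5 * m j)) : ℕ) : ℤ)) (k : ℤ)
      (by positivity) (fun j => Int.natCast_nonneg _) ?_ ?_
    · intro i j hij
      simp only [Matrix.of_apply, hcross i j]
      rw [add_sub_cancel_left]
      refine ⟨by positivity, ?_⟩
      have hne : p i ≠ p j := fun h => hij (p.injective h)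
      have hoff := G_off hF (p i) (p j) (s i) (s j) (5 * m j + 1) (hD i) (hD j)
        (by rw [(hg _ (hp i)).1, (hg _ (hp j)).1]) hne (res_one _)
      rw [(hg _ (hp i)).1] at hoff
      have hle : (phi A B C D (m j) (z j) (p i ++ s i)).valuation ≤ k := by
        apply val_le_of_not_dvd
        intro hdvd
        apply hoff
        have h1 : (5 : ℤ_[5]) ^ (k + 1) ∣ phi A B C D (m j) (z j) (p j ++ s j) := by
          refine dvd_trans ?_ (hphi j)
          rw [hlen j]
          exact pow_dvd_pow _ (by omega)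
        have h2 := dvd_sub hdvd h1
        have e : phi A B C D (m j) (z j) (p i ++ s i) - phi A B C D (m j) (z j) (p j ++ s j)
            = 5 * ((5 * (m j : ℤ_[5]) + 1) ^ 6 * (G A B C D (p i ++ s i) (5 * m j + 1) 0
              - G A B C D (p j ++ s j) (5 * m j + 1) 0)) := by
          unfold phi; ring
        rw [e, pow_succ'] at h2
        have h3 := (mul_dvd_mul_iff_left five_ne_zero).1 h2
        have hc : IsUnit ((5 * (m j : ℤ_[5]) + 1) ^ 6) := by
          rw [isUnit_iff_rd]
          simp only [map_pow, map_add, map_mul, map_one, map_ofNat, rd_pow_six]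
          decide
        exact (hc.dvd_mul_left).1 h3
      exact_mod_cast hle
    · intro j
      simp only [Matrix.of_apply, hcross j j]
      rw [add_sub_cancel_left]
      have h1 := le_val_of_dvd (u_val_formula hF (hz j) (hD j)).1 (hphi j)
      rw [hlen j] at h1
      have h2 : 2 * N * k + 1 ≤ (phi A B C D (m j) (z j) (p j ++ s j)).valuation := by omega
      exact_mod_cast h2

/-- a determinant which factors through fewer columns vanishes -/
theorem det_factor_eq_zero {R : Type*} [CommRing R] {N : ℕ}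
    (A : Matrix (Fin (N + 1)) (Fin N) R) (G : Matrix (Fin N) (Fin (N + 1)) R) :
    (A * G).det = 0 := by
  set A' : Matrix (Fin (N + 1)) (Fin (N + 1)) R := fun i j => Fin.snoc (α := fun _ => R) (A i) 0 j
    with hA'
  set G' : Matrix (Fin (N + 1)) (Fin (N + 1)) R :=
    fun i j => Fin.snoc (α := fun _ => R) (fun l => G l j) 0 i with hG'
  have h : A * G = A' * G' := by
    ext i j
    rw [Matrix.mul_apply, Matrix.mul_apply, Fin.sum_univ_castSucc]
    simp [hA', hG']
  rw [h, Matrix.det_mul, Matrix.det_eq_zero_of_column_eq_zero (Fin.last N) (fun i => by simp [hA']),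
    zero_mul]

/-- For every `N`, from some level `e₀` on, the sequences `(b_{5^e n + r})_n` with `0 ≤ r < 5^e`
are not all contained in a module generated by `N` sequences, over any commutative ring of
characteristic zero. -/
theorem result (N : ℕ) : ∃ e₀ : ℕ, ∀ e, e₀ ≤ e →
    ∀ (R : Type*) [CommRing R] [CharZero R] (g : Fin N → ℕ → R),
      ∃ r, r < 5 ^ e ∧
        (fun n : ℕ => ((b (5 ^ e * n + r) : ℕ) : R)) ∉ Submodule.span R (Set.range g) := by
  obtain ⟨e₀, he₀⟩ := minors (N + 1)
  refine ⟨e₀, fun e he R _ _ g => ?_⟩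
  obtain ⟨r, m, hr, hdet⟩ := he₀ e he
  by_contra hcon
  push Not at hcon
  have h1 : ∀ i, ∃ a : Fin N → R, ∑ l, a l • g l = fun n : ℕ => ((b (5 ^ e * n + r i) : ℕ) : R) :=
    fun i => (Submodule.mem_span_range_iff_exists_fun R).1 (hcon (r i) (hr i))
  choose a ha using h1
  have h2 : (Matrix.of fun i j => ((b (5 ^ e * m j + r i) : ℕ) : ℤ)).map (Int.castRingHom R)
      = (Matrix.of a) * (Matrix.of fun l j => g l (m j)) := by
    ext i j
    have := congrFun (ha i) (m j)
    simp only [Finset.sum_apply, Pi.smul_apply, smul_eq_mul] at this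
    simp only [Matrix.map_apply, Matrix.of_apply, Matrix.mul_apply, this]
    simp
  have h3 : ((Matrix.of fun i j => ((b (5 ^ e * m j + r i) : ℕ) : ℤ)).det : R) = 0 := by
    have h4 := det_factor_eq_zero (Matrix.of a) (Matrix.of fun l j => g l (m j))
    rw [← h2] at h4
    have h5 := RingHom.map_det (Int.castRingHom R)
      (Matrix.of fun i j => ((b (5 ^ e * m j + r i) : ℕ) : ℤ))
    rw [RingHom.mapMatrix_apply, h4] at h5
    simpa using h5
  exact hdet (by exact_mod_cast h3)

end Pool.Agent.Results.MP_ae71a2_nt.KernelRank
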